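import Pool.Agent.N321.KT.Defs

/-! Project KT (helper321), leaf N4 (helper37): the certificate for four coordinates. -/

set_option autoImplicit false

namespace Pool.Agent.N37.KT.N4

open Pool.Agent.N321.KT

theorem zero_of (X Y : ℝ) (h : X = Y) (h0 : X = 0) : Y = 0 := h.symm.trans h0

theorem q13_2 (e : Fin 4 → ℝ) (v : Jet (Fin 4) ℝ) (f : ℕ → ℕ → ℕ → ℕ → ℝ)
    (hf : ∀ w, v w = f (w.count 0) (w.count 1) (w.count 2) (w.count 3))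
    (hr : Rows 4 (Kjet ![0, 1, 4, 9] (lin e b4)) v) :
    (8)*f 0 1 1 1 + (-1)*e 1*e 3*f 1 0 1 0 + (3)*e 1*e 3*f 0 0 1 1 = 0 := by
  obtain ⟨X, hX⟩ : ∃ X, X = om (Kjet ![0, 1, 4, 9] (lin e b4)) v 1 3 [2] := ⟨_, rfl⟩
  have hX0 : X = 0 := by rw [hX]; exact hr _ (by decide) _ _
  simp only [om, th, mul, D, Kjet, Fin.sum_univ_four, hf] at hX
  simp [lin, b4] at hX
  linear_combination hX0 - hX

theorem q23_1 (e : Fin 4 → ℝ) (v : Jet (Fin 4) ℝ) (f : ℕ → ℕ → ℕ → ℕ → ℝ)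
    (hf : ∀ w, v w = f (w.count 0) (w.count 1) (w.count 2) (w.count 3))
    (hr : Rows 4 (Kjet ![0, 1, 4, 9] (lin e b4)) v) :
    (5)*f 0 1 1 1 + (-1)*e 1*e 3*f 1 0 1 0 + (2)*e 1*e 3*f 0 0 1 1 + (1)*e 1*e 2*f 1 0 0 1 = 0 := by
  obtain ⟨X, hX⟩ : ∃ X, X = om (Kjet ![0, 1, 4, 9] (lin e b4)) v 2 3 [1] := ⟨_, rfl⟩
  have hX0 : X = 0 := by rw [hX]; exact hr _ (by decide) _ _
  simp only [om, th, mul, D, Kjet, Fin.sum_univ_four, hf] at hX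
  simp [lin, b4] at hX
  linear_combination hX0 - hX

theorem q02_ (e : Fin 4 → ℝ) (v : Jet (Fin 4) ℝ) (f : ℕ → ℕ → ℕ → ℕ → ℝ)
    (hf : ∀ w, v w = f (w.count 0) (w.count 1) (w.count 2) (w.count 3))
    (hr : Rows 4 (Kjet ![0, 1, 4, 9] (lin e b4)) v) :
    (4)*f 1 0 1 0 + (1)*e 0*e 2*f 0 1 0 0 = 0 := by
  obtain ⟨X, hX⟩ : ∃ X, X = om (Kjet ![0, 1, 4, 9] (lin e b4)) v 0 2 [] := ⟨_, rfl⟩
  have hX0 : X = 0 := by rw [hX]; exact hr _ (by decide) _ _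
  simp only [om, th, mul, D, Kjet, Fin.sum_univ_four, hf] at hX
  simp [lin, b4] at hX
  linear_combination hX0 - hX

theorem q23_ (e : Fin 4 → ℝ) (v : Jet (Fin 4) ℝ) (f : ℕ → ℕ → ℕ → ℕ → ℝ)
    (hf : ∀ w, v w = f (w.count 0) (w.count 1) (w.count 2) (w.count 3))
    (hr : Rows 4 (Kjet ![0, 1, 4, 9] (lin e b4)) v) :
    (5)*f 0 0 1 1 = 0 := by
  obtain ⟨X, hX⟩ : ∃ X, X = om (Kjet ![0, 1, 4, 9] (lin e b4)) v 2 3 [] := ⟨_, rfl⟩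
  have hX0 : X = 0 := by rw [hX]; exact hr _ (by decide) _ _
  simp only [om, th, mul, D, Kjet, Fin.sum_univ_four, hf] at hX
  simp [lin, b4] at hX
  linear_combination hX0 - hX

theorem q03_ (e : Fin 4 → ℝ) (v : Jet (Fin 4) ℝ) (f : ℕ → ℕ → ℕ → ℕ → ℝ)
    (hf : ∀ w, v w = f (w.count 0) (w.count 1) (w.count 2) (w.count 3))
    (hr : Rows 4 (Kjet ![0, 1, 4, 9] (lin e b4)) v) :
    (9)*f 1 0 0 1 + (1)*e 0*e 3*f 0 1 0 0 = 0 := by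
  obtain ⟨X, hX⟩ : ∃ X, X = om (Kjet ![0, 1, 4, 9] (lin e b4)) v 0 3 [] := ⟨_, rfl⟩
  have hX0 : X = 0 := by rw [hX]; exact hr _ (by decide) _ _
  simp only [om, th, mul, D, Kjet, Fin.sum_univ_four, hf] at hX
  simp [lin, b4] at hX
  linear_combination hX0 - hX

theorem q03_2 (e : Fin 4 → ℝ) (v : Jet (Fin 4) ℝ) (f : ℕ → ℕ → ℕ → ℕ → ℝ)
    (hf : ∀ w, v w = f (w.count 0) (w.count 1) (w.count 2) (w.count 3))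
    (hr : Rows 4 (Kjet ![0, 1, 4, 9] (lin e b4)) v) :
    (9)*f 1 0 1 1 + (1)*e 0*e 3*f 0 1 1 0 = 0 := by
  obtain ⟨X, hX⟩ : ∃ X, X = om (Kjet ![0, 1, 4, 9] (lin e b4)) v 0 3 [2] := ⟨_, rfl⟩
  have hX0 : X = 0 := by rw [hX]; exact hr _ (by decide) _ _
  simp only [om, th, mul, D, Kjet, Fin.sum_univ_four, hf] at hX
  simp [lin, b4] at hX
  linear_combination hX0 - hX

theorem q23_0 (e : Fin 4 → ℝ) (v : Jet (Fin 4) ℝ) (f : ℕ → ℕ → ℕ → ℕ → ℝ)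
    (hf : ∀ w, v w = f (w.count 0) (w.count 1) (w.count 2) (w.count 3))
    (hr : Rows 4 (Kjet ![0, 1, 4, 9] (lin e b4)) v) :
    (5)*f 1 0 1 1 + (1)*e 0*e 3*f 0 1 1 0 + (-1)*e 0*e 2*f 0 1 0 1 = 0 := by
  obtain ⟨X, hX⟩ : ∃ X, X = om (Kjet ![0, 1, 4, 9] (lin e b4)) v 2 3 [0] := ⟨_, rfl⟩
  have hX0 : X = 0 := by rw [hX]; exact hr _ (by decide) _ _
  simp only [om, th, mul, D, Kjet, Fin.sum_univ_four, hf] at hX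
  simp [lin, b4] at hX
  linear_combination hX0 - hX

theorem q12_ (e : Fin 4 → ℝ) (v : Jet (Fin 4) ℝ) (f : ℕ → ℕ → ℕ → ℕ → ℝ)
    (hf : ∀ w, v w = f (w.count 0) (w.count 1) (w.count 2) (w.count 3))
    (hr : Rows 4 (Kjet ![0, 1, 4, 9] (lin e b4)) v) :
    (3)*f 0 1 1 0 + (-1)*e 1*e 2*f 1 0 0 0 = 0 := by
  obtain ⟨X, hX⟩ : ∃ X, X = om (Kjet ![0, 1, 4, 9] (lin e b4)) v 1 2 [] := ⟨_, rfl⟩
  have hX0 : X = 0 := by rw [hX]; exact hr _ (by decide) _ _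
  simp only [om, th, mul, D, Kjet, Fin.sum_univ_four, hf] at hX
  simp [lin, b4] at hX
  linear_combination hX0 - hX

theorem q13_ (e : Fin 4 → ℝ) (v : Jet (Fin 4) ℝ) (f : ℕ → ℕ → ℕ → ℕ → ℝ)
    (hf : ∀ w, v w = f (w.count 0) (w.count 1) (w.count 2) (w.count 3))
    (hr : Rows 4 (Kjet ![0, 1, 4, 9] (lin e b4)) v) :
    (8)*f 0 1 0 1 + (-1)*e 1*e 3*f 1 0 0 0 + (3)*e 1*e 3*f 0 0 0 1 = 0 := by
  obtain ⟨X, hX⟩ : ∃ X, X = om (Kjet ![0, 1, 4, 9] (lin e b4)) v 1 3 [] := ⟨_, rfl⟩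
  have hX0 : X = 0 := by rw [hX]; exact hr _ (by decide) _ _
  simp only [om, th, mul, D, Kjet, Fin.sum_univ_four, hf] at hX
  simp [lin, b4] at hX
  linear_combination hX0 - hX

theorem q13_22 (e : Fin 4 → ℝ) (v : Jet (Fin 4) ℝ) (f : ℕ → ℕ → ℕ → ℕ → ℝ)
    (hf : ∀ w, v w = f (w.count 0) (w.count 1) (w.count 2) (w.count 3))
    (hr : Rows 4 (Kjet ![0, 1, 4, 9] (lin e b4)) v) :
    (8)*f 0 1 2 1 + (-1)*e 1*e 3*f 1 0 2 0 + (3)*e 1*e 3*f 0 0 2 1 = 0 := by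
  obtain ⟨X, hX⟩ : ∃ X, X = om (Kjet ![0, 1, 4, 9] (lin e b4)) v 1 3 [2, 2] := ⟨_, rfl⟩
  have hX0 : X = 0 := by rw [hX]; exact hr _ (by decide) _ _
  simp only [om, th, mul, D, Kjet, Fin.sum_univ_four, hf] at hX
  simp [lin, b4] at hX
  linear_combination hX0 - hX

theorem q23_12 (e : Fin 4 → ℝ) (v : Jet (Fin 4) ℝ) (f : ℕ → ℕ → ℕ → ℕ → ℝ)
    (hf : ∀ w, v w = f (w.count 0) (w.count 1) (w.count 2) (w.count 3))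
    (hr : Rows 4 (Kjet ![0, 1, 4, 9] (lin e b4)) v) :
    (5)*f 0 1 2 1 + (-1)*e 1*e 3*f 1 0 2 0 + (2)*e 1*e 3*f 0 0 2 1 + (1)*e 1*e 2*f 1 0 1 1 = 0 := by
  obtain ⟨X, hX⟩ : ∃ X, X = om (Kjet ![0, 1, 4, 9] (lin e b4)) v 2 3 [1, 2] := ⟨_, rfl⟩
  have hX0 : X = 0 := by rw [hX]; exact hr _ (by decide) _ _
  simp only [om, th, mul, D, Kjet, Fin.sum_univ_four, hf] at hX
  simp [lin, b4] at hX
  linear_combination hX0 - hX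

theorem q02_2 (e : Fin 4 → ℝ) (v : Jet (Fin 4) ℝ) (f : ℕ → ℕ → ℕ → ℕ → ℝ)
    (hf : ∀ w, v w = f (w.count 0) (w.count 1) (w.count 2) (w.count 3))
    (hr : Rows 4 (Kjet ![0, 1, 4, 9] (lin e b4)) v) :
    (4)*f 1 0 2 0 + (1)*e 0*e 2*f 0 1 1 0 = 0 := by
  obtain ⟨X, hX⟩ : ∃ X, X = om (Kjet ![0, 1, 4, 9] (lin e b4)) v 0 2 [2] := ⟨_, rfl⟩
  have hX0 : X = 0 := by rw [hX]; exact hr _ (by decide) _ _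
  simp only [om, th, mul, D, Kjet, Fin.sum_univ_four, hf] at hX
  simp [lin, b4] at hX
  linear_combination hX0 - hX

theorem q23_2 (e : Fin 4 → ℝ) (v : Jet (Fin 4) ℝ) (f : ℕ → ℕ → ℕ → ℕ → ℝ)
    (hf : ∀ w, v w = f (w.count 0) (w.count 1) (w.count 2) (w.count 3))
    (hr : Rows 4 (Kjet ![0, 1, 4, 9] (lin e b4)) v) :
    (5)*f 0 0 2 1 = 0 := by
  obtain ⟨X, hX⟩ : ∃ X, X = om (Kjet ![0, 1, 4, 9] (lin e b4)) v 2 3 [2] := ⟨_, rfl⟩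
  have hX0 : X = 0 := by rw [hX]; exact hr _ (by decide) _ _
  simp only [om, th, mul, D, Kjet, Fin.sum_univ_four, hf] at hX
  simp [lin, b4] at hX
  linear_combination hX0 - hX

theorem q13_02 (e : Fin 4 → ℝ) (v : Jet (Fin 4) ℝ) (f : ℕ → ℕ → ℕ → ℕ → ℝ)
    (hf : ∀ w, v w = f (w.count 0) (w.count 1) (w.count 2) (w.count 3))
    (hr : Rows 4 (Kjet ![0, 1, 4, 9] (lin e b4)) v) :
    (8)*f 1 1 1 1 + (-1)*e 1*e 3*f 2 0 1 0 + (1)*e 0*e 3*f 0 2 1 0 + (3)*e 1*e 3*f 1 0 1 1 + (-1)*e 0*e 1*f 0 0 2 1 + (-1)*e 0*e 1*f 0 0 1 2 = 0 := by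
  obtain ⟨X, hX⟩ : ∃ X, X = om (Kjet ![0, 1, 4, 9] (lin e b4)) v 1 3 [0, 2] := ⟨_, rfl⟩
  have hX0 : X = 0 := by rw [hX]; exact hr _ (by decide) _ _
  simp only [om, th, mul, D, Kjet, Fin.sum_univ_four, hf] at hX
  simp [lin, b4] at hX
  linear_combination hX0 - hX

theorem q23_01 (e : Fin 4 → ℝ) (v : Jet (Fin 4) ℝ) (f : ℕ → ℕ → ℕ → ℕ → ℝ)
    (hf : ∀ w, v w = f (w.count 0) (w.count 1) (w.count 2) (w.count 3))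
    (hr : Rows 4 (Kjet ![0, 1, 4, 9] (lin e b4)) v) :
    (5)*f 1 1 1 1 + (-1)*e 1*e 3*f 2 0 1 0 + (1)*e 0*e 3*f 0 2 1 0 + (2)*e 1*e 3*f 1 0 1 1 + (1)*e 1*e 2*f 2 0 0 1 + (-1)*e 0*e 2*f 0 2 0 1 = 0 := by
  obtain ⟨X, hX⟩ : ∃ X, X = om (Kjet ![0, 1, 4, 9] (lin e b4)) v 2 3 [0, 1] := ⟨_, rfl⟩
  have hX0 : X = 0 := by rw [hX]; exact hr _ (by decide) _ _
  simp only [om, th, mul, D, Kjet, Fin.sum_univ_four, hf] at hX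
  simp [lin, b4] at hX
  linear_combination hX0 - hX

theorem q02_0 (e : Fin 4 → ℝ) (v : Jet (Fin 4) ℝ) (f : ℕ → ℕ → ℕ → ℕ → ℝ)
    (hf : ∀ w, v w = f (w.count 0) (w.count 1) (w.count 2) (w.count 3))
    (hr : Rows 4 (Kjet ![0, 1, 4, 9] (lin e b4)) v) :
    (4)*f 2 0 1 0 + (2)*e 0*e 2*f 1 1 0 0 = 0 := by
  obtain ⟨X, hX⟩ : ∃ X, X = om (Kjet ![0, 1, 4, 9] (lin e b4)) v 0 2 [0] := ⟨_, rfl⟩
  have hX0 : X = 0 := by rw [hX]; exact hr _ (by decide) _ _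
  simp only [om, th, mul, D, Kjet, Fin.sum_univ_four, hf] at hX
  simp [lin, b4] at hX
  linear_combination hX0 - hX

theorem q01_ (e : Fin 4 → ℝ) (v : Jet (Fin 4) ℝ) (f : ℕ → ℕ → ℕ → ℕ → ℝ)
    (hf : ∀ w, v w = f (w.count 0) (w.count 1) (w.count 2) (w.count 3))
    (hr : Rows 4 (Kjet ![0, 1, 4, 9] (lin e b4)) v) :
    (1)*f 1 1 0 0 + (2)*e 0*e 1*f 0 0 1 0 + (2)*e 0*e 1*f 0 0 0 1 = 0 := by
  obtain ⟨X, hX⟩ : ∃ X, X = om (Kjet ![0, 1, 4, 9] (lin e b4)) v 0 1 [] := ⟨_, rfl⟩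
  have hX0 : X = 0 := by rw [hX]; exact hr _ (by decide) _ _
  simp only [om, th, mul, D, Kjet, Fin.sum_univ_four, hf] at hX
  simp [lin, b4] at hX
  linear_combination hX0 - hX

theorem q12_1 (e : Fin 4 → ℝ) (v : Jet (Fin 4) ℝ) (f : ℕ → ℕ → ℕ → ℕ → ℝ)
    (hf : ∀ w, v w = f (w.count 0) (w.count 1) (w.count 2) (w.count 3))
    (hr : Rows 4 (Kjet ![0, 1, 4, 9] (lin e b4)) v) :
    (3)*f 0 2 1 0 + (-2)*e 1*e 2*f 1 1 0 0 = 0 := by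
  obtain ⟨X, hX⟩ : ∃ X, X = om (Kjet ![0, 1, 4, 9] (lin e b4)) v 1 2 [1] := ⟨_, rfl⟩
  have hX0 : X = 0 := by rw [hX]; exact hr _ (by decide) _ _
  simp only [om, th, mul, D, Kjet, Fin.sum_univ_four, hf] at hX
  simp [lin, b4] at hX
  linear_combination hX0 - hX

theorem q03_0 (e : Fin 4 → ℝ) (v : Jet (Fin 4) ℝ) (f : ℕ → ℕ → ℕ → ℕ → ℝ)
    (hf : ∀ w, v w = f (w.count 0) (w.count 1) (w.count 2) (w.count 3))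
    (hr : Rows 4 (Kjet ![0, 1, 4, 9] (lin e b4)) v) :
    (9)*f 2 0 0 1 + (2)*e 0*e 3*f 1 1 0 0 = 0 := by
  obtain ⟨X, hX⟩ : ∃ X, X = om (Kjet ![0, 1, 4, 9] (lin e b4)) v 0 3 [0] := ⟨_, rfl⟩
  have hX0 : X = 0 := by rw [hX]; exact hr _ (by decide) _ _
  simp only [om, th, mul, D, Kjet, Fin.sum_univ_four, hf] at hX
  simp [lin, b4] at hX
  linear_combination hX0 - hX

theorem q13_1 (e : Fin 4 → ℝ) (v : Jet (Fin 4) ℝ) (f : ℕ → ℕ → ℕ → ℕ → ℝ)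
    (hf : ∀ w, v w = f (w.count 0) (w.count 1) (w.count 2) (w.count 3))
    (hr : Rows 4 (Kjet ![0, 1, 4, 9] (lin e b4)) v) :
    (8)*f 0 2 0 1 + (-2)*e 1*e 3*f 1 1 0 0 + (5)*e 1*e 3*f 0 1 0 1 = 0 := by
  obtain ⟨X, hX⟩ : ∃ X, X = om (Kjet ![0, 1, 4, 9] (lin e b4)) v 1 3 [1] := ⟨_, rfl⟩
  have hX0 : X = 0 := by rw [hX]; exact hr _ (by decide) _ _
  simp only [om, th, mul, D, Kjet, Fin.sum_univ_four, hf] at hX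
  simp [lin, b4] at hX
  linear_combination hX0 - hX

theorem q23_3 (e : Fin 4 → ℝ) (v : Jet (Fin 4) ℝ) (f : ℕ → ℕ → ℕ → ℕ → ℝ)
    (hf : ∀ w, v w = f (w.count 0) (w.count 1) (w.count 2) (w.count 3))
    (hr : Rows 4 (Kjet ![0, 1, 4, 9] (lin e b4)) v) :
    (5)*f 0 0 1 2 + (-1)*e 3^2*f 0 1 1 0 = 0 := by
  obtain ⟨X, hX⟩ : ∃ X, X = om (Kjet ![0, 1, 4, 9] (lin e b4)) v 2 3 [3] := ⟨_, rfl⟩
  have hX0 : X = 0 := by rw [hX]; exact hr _ (by decide) _ _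
  simp only [om, th, mul, D, Kjet, Fin.sum_univ_four, hf] at hX
  simp [lin, b4] at hX
  linear_combination hX0 - hX

theorem q01_3 (e : Fin 4 → ℝ) (v : Jet (Fin 4) ℝ) (f : ℕ → ℕ → ℕ → ℕ → ℝ)
    (hf : ∀ w, v w = f (w.count 0) (w.count 1) (w.count 2) (w.count 3))
    (hr : Rows 4 (Kjet ![0, 1, 4, 9] (lin e b4)) v) :
    (1)*f 1 1 0 1 + (2)*e 0*e 1*f 0 0 1 1 + (2)*e 0*e 1*f 0 0 0 2 + (-1)*e 1*e 3*f 1 0 0 1 = 0 := by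
  obtain ⟨X, hX⟩ : ∃ X, X = om (Kjet ![0, 1, 4, 9] (lin e b4)) v 0 1 [3] := ⟨_, rfl⟩
  have hX0 : X = 0 := by rw [hX]; exact hr _ (by decide) _ _
  simp only [om, th, mul, D, Kjet, Fin.sum_univ_four, hf] at hX
  simp [lin, b4] at hX
  linear_combination hX0 - hX

theorem q13_0 (e : Fin 4 → ℝ) (v : Jet (Fin 4) ℝ) (f : ℕ → ℕ → ℕ → ℕ → ℝ)
    (hf : ∀ w, v w = f (w.count 0) (w.count 1) (w.count 2) (w.count 3))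
    (hr : Rows 4 (Kjet ![0, 1, 4, 9] (lin e b4)) v) :
    (8)*f 1 1 0 1 + (-1)*e 1*e 3*f 2 0 0 0 + (1)*e 0*e 3*f 0 2 0 0 + (3)*e 1*e 3*f 1 0 0 1 + (-1)*e 0*e 1*f 0 0 1 1 + (-1)*e 0*e 1*f 0 0 0 2 = 0 := by
  obtain ⟨X, hX⟩ : ∃ X, X = om (Kjet ![0, 1, 4, 9] (lin e b4)) v 1 3 [0] := ⟨_, rfl⟩
  have hX0 : X = 0 := by rw [hX]; exact hr _ (by decide) _ _
  simp only [om, th, mul, D, Kjet, Fin.sum_univ_four, hf] at hX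
  simp [lin, b4] at hX
  linear_combination hX0 - hX

theorem q01_2 (e : Fin 4 → ℝ) (v : Jet (Fin 4) ℝ) (f : ℕ → ℕ → ℕ → ℕ → ℝ)
    (hf : ∀ w, v w = f (w.count 0) (w.count 1) (w.count 2) (w.count 3))
    (hr : Rows 4 (Kjet ![0, 1, 4, 9] (lin e b4)) v) :
    (1)*f 1 1 1 0 + (2)*e 0*e 1*f 0 0 2 0 + (2)*e 0*e 1*f 0 0 1 1 = 0 := by
  obtain ⟨X, hX⟩ : ∃ X, X = om (Kjet ![0, 1, 4, 9] (lin e b4)) v 0 1 [2] := ⟨_, rfl⟩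
  have hX0 : X = 0 := by rw [hX]; exact hr _ (by decide) _ _
  simp only [om, th, mul, D, Kjet, Fin.sum_univ_four, hf] at hX
  simp [lin, b4] at hX
  linear_combination hX0 - hX

theorem q12_0 (e : Fin 4 → ℝ) (v : Jet (Fin 4) ℝ) (f : ℕ → ℕ → ℕ → ℕ → ℝ)
    (hf : ∀ w, v w = f (w.count 0) (w.count 1) (w.count 2) (w.count 3))
    (hr : Rows 4 (Kjet ![0, 1, 4, 9] (lin e b4)) v) :
    (3)*f 1 1 1 0 + (-1)*e 1*e 2*f 2 0 0 0 + (1)*e 0*e 2*f 0 2 0 0 + (-1)*e 0*e 1*f 0 0 2 0 + (-1)*e 0*e 1*f 0 0 1 1 = 0 := by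
  obtain ⟨X, hX⟩ : ∃ X, X = om (Kjet ![0, 1, 4, 9] (lin e b4)) v 1 2 [0] := ⟨_, rfl⟩
  have hX0 : X = 0 := by rw [hX]; exact hr _ (by decide) _ _
  simp only [om, th, mul, D, Kjet, Fin.sum_univ_four, hf] at hX
  simp [lin, b4] at hX
  linear_combination hX0 - hX

theorem q13_12 (e : Fin 4 → ℝ) (v : Jet (Fin 4) ℝ) (f : ℕ → ℕ → ℕ → ℕ → ℝ)
    (hf : ∀ w, v w = f (w.count 0) (w.count 1) (w.count 2) (w.count 3))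
    (hr : Rows 4 (Kjet ![0, 1, 4, 9] (lin e b4)) v) :
    (8)*f 0 2 1 1 + (-2)*e 1*e 3*f 1 1 1 0 + (5)*e 1*e 3*f 0 1 1 1 = 0 := by
  obtain ⟨X, hX⟩ : ∃ X, X = om (Kjet ![0, 1, 4, 9] (lin e b4)) v 1 3 [1, 2] := ⟨_, rfl⟩
  have hX0 : X = 0 := by rw [hX]; exact hr _ (by decide) _ _
  simp only [om, th, mul, D, Kjet, Fin.sum_univ_four, hf] at hX
  simp [lin, b4] at hX
  linear_combination hX0 - hX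

theorem q23_11 (e : Fin 4 → ℝ) (v : Jet (Fin 4) ℝ) (f : ℕ → ℕ → ℕ → ℕ → ℝ)
    (hf : ∀ w, v w = f (w.count 0) (w.count 1) (w.count 2) (w.count 3))
    (hr : Rows 4 (Kjet ![0, 1, 4, 9] (lin e b4)) v) :
    (5)*f 0 2 1 1 + (-2)*e 1*e 3*f 1 1 1 0 + (4)*e 1*e 3*f 0 1 1 1 + (2)*e 1*e 2*f 1 1 0 1 = 0 := by
  obtain ⟨X, hX⟩ : ∃ X, X = om (Kjet ![0, 1, 4, 9] (lin e b4)) v 2 3 [1, 1] := ⟨_, rfl⟩
  have hX0 : X = 0 := by rw [hX]; exact hr _ (by decide) _ _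
  simp only [om, th, mul, D, Kjet, Fin.sum_univ_four, hf] at hX
  simp [lin, b4] at hX
  linear_combination hX0 - hX

theorem q02_11 (e : Fin 4 → ℝ) (v : Jet (Fin 4) ℝ) (f : ℕ → ℕ → ℕ → ℕ → ℝ)
    (hf : ∀ w, v w = f (w.count 0) (w.count 1) (w.count 2) (w.count 3))
    (hr : Rows 4 (Kjet ![0, 1, 4, 9] (lin e b4)) v) :
    (4)*f 1 2 1 0 + (-2)*e 1*e 2*f 2 1 0 0 + (1)*e 0*e 2*f 0 3 0 0 + (2)*e 0*e 1*f 0 1 2 0 + (2)*e 0*e 1*f 0 1 1 1 = 0 := by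
  obtain ⟨X, hX⟩ : ∃ X, X = om (Kjet ![0, 1, 4, 9] (lin e b4)) v 0 2 [1, 1] := ⟨_, rfl⟩
  have hX0 : X = 0 := by rw [hX]; exact hr _ (by decide) _ _
  simp only [om, th, mul, D, Kjet, Fin.sum_univ_four, hf] at hX
  simp [lin, b4] at hX
  linear_combination hX0 - hX

theorem q12_01 (e : Fin 4 → ℝ) (v : Jet (Fin 4) ℝ) (f : ℕ → ℕ → ℕ → ℕ → ℝ)
    (hf : ∀ w, v w = f (w.count 0) (w.count 1) (w.count 2) (w.count 3))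
    (hr : Rows 4 (Kjet ![0, 1, 4, 9] (lin e b4)) v) :
    (3)*f 1 2 1 0 + (-2)*e 1*e 2*f 2 1 0 0 + (1)*e 0*e 2*f 0 3 0 0 + (-1)*e 0*e 1*f 0 1 2 0 + (-1)*e 0*e 1*f 0 1 1 1 = 0 := by
  obtain ⟨X, hX⟩ : ∃ X, X = om (Kjet ![0, 1, 4, 9] (lin e b4)) v 1 2 [0, 1] := ⟨_, rfl⟩
  have hX0 : X = 0 := by rw [hX]; exact hr _ (by decide) _ _
  simp only [om, th, mul, D, Kjet, Fin.sum_univ_four, hf] at hX
  simp [lin, b4] at hX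
  linear_combination hX0 - hX

theorem q01_0 (e : Fin 4 → ℝ) (v : Jet (Fin 4) ℝ) (f : ℕ → ℕ → ℕ → ℕ → ℝ)
    (hf : ∀ w, v w = f (w.count 0) (w.count 1) (w.count 2) (w.count 3))
    (hr : Rows 4 (Kjet ![0, 1, 4, 9] (lin e b4)) v) :
    (1)*f 2 1 0 0 + (3)*e 0*e 1*f 1 0 1 0 + (3)*e 0*e 1*f 1 0 0 1 = 0 := by
  obtain ⟨X, hX⟩ : ∃ X, X = om (Kjet ![0, 1, 4, 9] (lin e b4)) v 0 1 [0] := ⟨_, rfl⟩
  have hX0 : X = 0 := by rw [hX]; exact hr _ (by decide) _ _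
  simp only [om, th, mul, D, Kjet, Fin.sum_univ_four, hf] at hX
  simp [lin, b4] at hX
  linear_combination hX0 - hX

theorem q12_2 (e : Fin 4 → ℝ) (v : Jet (Fin 4) ℝ) (f : ℕ → ℕ → ℕ → ℕ → ℝ)
    (hf : ∀ w, v w = f (w.count 0) (w.count 1) (w.count 2) (w.count 3))
    (hr : Rows 4 (Kjet ![0, 1, 4, 9] (lin e b4)) v) :
    (3)*f 0 1 2 0 + (-1)*e 1*e 2*f 1 0 1 0 = 0 := by
  obtain ⟨X, hX⟩ : ∃ X, X = om (Kjet ![0, 1, 4, 9] (lin e b4)) v 1 2 [2] := ⟨_, rfl⟩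
  have hX0 : X = 0 := by rw [hX]; exact hr _ (by decide) _ _
  simp only [om, th, mul, D, Kjet, Fin.sum_univ_four, hf] at hX
  simp [lin, b4] at hX
  linear_combination hX0 - hX

theorem q01_13 (e : Fin 4 → ℝ) (v : Jet (Fin 4) ℝ) (f : ℕ → ℕ → ℕ → ℕ → ℝ)
    (hf : ∀ w, v w = f (w.count 0) (w.count 1) (w.count 2) (w.count 3))
    (hr : Rows 4 (Kjet ![0, 1, 4, 9] (lin e b4)) v) :
    (1)*f 1 2 0 1 + (3)*e 0*e 1*f 0 1 1 1 + (3)*e 0*e 1*f 0 1 0 2 + (-1)*e 1*e 3*f 1 1 0 1 = 0 := by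
  obtain ⟨X, hX⟩ : ∃ X, X = om (Kjet ![0, 1, 4, 9] (lin e b4)) v 0 1 [1, 3] := ⟨_, rfl⟩
  have hX0 : X = 0 := by rw [hX]; exact hr _ (by decide) _ _
  simp only [om, th, mul, D, Kjet, Fin.sum_univ_four, hf] at hX
  simp [lin, b4] at hX
  linear_combination hX0 - hX

theorem q13_01 (e : Fin 4 → ℝ) (v : Jet (Fin 4) ℝ) (f : ℕ → ℕ → ℕ → ℕ → ℝ)
    (hf : ∀ w, v w = f (w.count 0) (w.count 1) (w.count 2) (w.count 3))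
    (hr : Rows 4 (Kjet ![0, 1, 4, 9] (lin e b4)) v) :
    (8)*f 1 2 0 1 + (-2)*e 1*e 3*f 2 1 0 0 + (1)*e 0*e 3*f 0 3 0 0 + (5)*e 1*e 3*f 1 1 0 1 + (-1)*e 0*e 1*f 0 1 1 1 + (-1)*e 0*e 1*f 0 1 0 2 = 0 := by
  obtain ⟨X, hX⟩ : ∃ X, X = om (Kjet ![0, 1, 4, 9] (lin e b4)) v 1 3 [0, 1] := ⟨_, rfl⟩
  have hX0 : X = 0 := by rw [hX]; exact hr _ (by decide) _ _
  simp only [om, th, mul, D, Kjet, Fin.sum_univ_four, hf] at hX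
  simp [lin, b4] at hX
  linear_combination hX0 - hX

theorem q13_3 (e : Fin 4 → ℝ) (v : Jet (Fin 4) ℝ) (f : ℕ → ℕ → ℕ → ℕ → ℝ)
    (hf : ∀ w, v w = f (w.count 0) (w.count 1) (w.count 2) (w.count 3))
    (hr : Rows 4 (Kjet ![0, 1, 4, 9] (lin e b4)) v) :
    (8)*f 0 1 0 2 + (-1)*e 1*e 3*f 1 0 0 1 + (-1)*e 3^2*f 0 2 0 0 + (4)*e 1*e 3*f 0 0 0 2 = 0 := by
  obtain ⟨X, hX⟩ : ∃ X, X = om (Kjet ![0, 1, 4, 9] (lin e b4)) v 1 3 [3] := ⟨_, rfl⟩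
  have hX0 : X = 0 := by rw [hX]; exact hr _ (by decide) _ _
  simp only [om, th, mul, D, Kjet, Fin.sum_univ_four, hf] at hX
  simp [lin, b4] at hX
  linear_combination hX0 - hX

theorem q02_01 (e : Fin 4 → ℝ) (v : Jet (Fin 4) ℝ) (f : ℕ → ℕ → ℕ → ℕ → ℝ)
    (hf : ∀ w, v w = f (w.count 0) (w.count 1) (w.count 2) (w.count 3))
    (hr : Rows 4 (Kjet ![0, 1, 4, 9] (lin e b4)) v) :
    (4)*f 2 1 1 0 + (-1)*e 1*e 2*f 3 0 0 0 + (2)*e 0*e 2*f 1 2 0 0 + (1)*e 0*e 1*f 1 0 2 0 + (1)*e 0*e 1*f 1 0 1 1 = 0 := by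
  obtain ⟨X, hX⟩ : ∃ X, X = om (Kjet ![0, 1, 4, 9] (lin e b4)) v 0 2 [0, 1] := ⟨_, rfl⟩
  have hX0 : X = 0 := by rw [hX]; exact hr _ (by decide) _ _
  simp only [om, th, mul, D, Kjet, Fin.sum_univ_four, hf] at hX
  simp [lin, b4] at hX
  linear_combination hX0 - hX

theorem q12_00 (e : Fin 4 → ℝ) (v : Jet (Fin 4) ℝ) (f : ℕ → ℕ → ℕ → ℕ → ℝ)
    (hf : ∀ w, v w = f (w.count 0) (w.count 1) (w.count 2) (w.count 3))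
    (hr : Rows 4 (Kjet ![0, 1, 4, 9] (lin e b4)) v) :
    (3)*f 2 1 1 0 + (-1)*e 1*e 2*f 3 0 0 0 + (2)*e 0*e 2*f 1 2 0 0 + (-2)*e 0*e 1*f 1 0 2 0 + (-2)*e 0*e 1*f 1 0 1 1 = 0 := by
  obtain ⟨X, hX⟩ : ∃ X, X = om (Kjet ![0, 1, 4, 9] (lin e b4)) v 1 2 [0, 0] := ⟨_, rfl⟩
  have hX0 : X = 0 := by rw [hX]; exact hr _ (by decide) _ _
  simp only [om, th, mul, D, Kjet, Fin.sum_univ_four, hf] at hX
  simp [lin, b4] at hX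
  linear_combination hX0 - hX

theorem q01_1 (e : Fin 4 → ℝ) (v : Jet (Fin 4) ℝ) (f : ℕ → ℕ → ℕ → ℕ → ℝ)
    (hf : ∀ w, v w = f (w.count 0) (w.count 1) (w.count 2) (w.count 3))
    (hr : Rows 4 (Kjet ![0, 1, 4, 9] (lin e b4)) v) :
    (1)*f 1 2 0 0 + (3)*e 0*e 1*f 0 1 1 0 + (3)*e 0*e 1*f 0 1 0 1 = 0 := by
  obtain ⟨X, hX⟩ : ∃ X, X = om (Kjet ![0, 1, 4, 9] (lin e b4)) v 0 1 [1] := ⟨_, rfl⟩
  have hX0 : X = 0 := by rw [hX]; exact hr _ (by decide) _ _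
  simp only [om, th, mul, D, Kjet, Fin.sum_univ_four, hf] at hX
  simp [lin, b4] at hX
  linear_combination hX0 - hX

theorem q02_12 (e : Fin 4 → ℝ) (v : Jet (Fin 4) ℝ) (f : ℕ → ℕ → ℕ → ℕ → ℝ)
    (hf : ∀ w, v w = f (w.count 0) (w.count 1) (w.count 2) (w.count 3))
    (hr : Rows 4 (Kjet ![0, 1, 4, 9] (lin e b4)) v) :
    (4)*f 1 1 2 0 + (-1)*e 1*e 2*f 2 0 1 0 + (1)*e 0*e 2*f 0 2 1 0 + (1)*e 0*e 1*f 0 0 3 0 + (1)*e 0*e 1*f 0 0 2 1 = 0 := by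
  obtain ⟨X, hX⟩ : ∃ X, X = om (Kjet ![0, 1, 4, 9] (lin e b4)) v 0 2 [1, 2] := ⟨_, rfl⟩
  have hX0 : X = 0 := by rw [hX]; exact hr _ (by decide) _ _
  simp only [om, th, mul, D, Kjet, Fin.sum_univ_four, hf] at hX
  simp [lin, b4] at hX
  linear_combination hX0 - hX

theorem q12_02 (e : Fin 4 → ℝ) (v : Jet (Fin 4) ℝ) (f : ℕ → ℕ → ℕ → ℕ → ℝ)
    (hf : ∀ w, v w = f (w.count 0) (w.count 1) (w.count 2) (w.count 3))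
    (hr : Rows 4 (Kjet ![0, 1, 4, 9] (lin e b4)) v) :
    (3)*f 1 1 2 0 + (-1)*e 1*e 2*f 2 0 1 0 + (1)*e 0*e 2*f 0 2 1 0 + (-1)*e 0*e 1*f 0 0 3 0 + (-1)*e 0*e 1*f 0 0 2 1 = 0 := by
  obtain ⟨X, hX⟩ : ∃ X, X = om (Kjet ![0, 1, 4, 9] (lin e b4)) v 1 2 [0, 2] := ⟨_, rfl⟩
  have hX0 : X = 0 := by rw [hX]; exact hr _ (by decide) _ _
  simp only [om, th, mul, D, Kjet, Fin.sum_univ_four, hf] at hX
  simp [lin, b4] at hX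
  linear_combination hX0 - hX

theorem q03_13 (e : Fin 4 → ℝ) (v : Jet (Fin 4) ℝ) (f : ℕ → ℕ → ℕ → ℕ → ℝ)
    (hf : ∀ w, v w = f (w.count 0) (w.count 1) (w.count 2) (w.count 3))
    (hr : Rows 4 (Kjet ![0, 1, 4, 9] (lin e b4)) v) :
    (9)*f 1 1 0 2 + (-1)*e 1*e 3*f 2 0 0 1 + (1)*e 0*e 3*f 0 2 0 1 + (-1)*e 3^2*f 1 2 0 0 + (2)*e 1*e 3*f 1 0 0 2 + (1)*e 0*e 1*f 0 0 1 2 + (1)*e 0*e 1*f 0 0 0 3 = 0 := by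
  obtain ⟨X, hX⟩ : ∃ X, X = om (Kjet ![0, 1, 4, 9] (lin e b4)) v 0 3 [1, 3] := ⟨_, rfl⟩
  have hX0 : X = 0 := by rw [hX]; exact hr _ (by decide) _ _
  simp only [om, th, mul, D, Kjet, Fin.sum_univ_four, hf] at hX
  simp [lin, b4] at hX
  linear_combination hX0 - hX

theorem q13_03 (e : Fin 4 → ℝ) (v : Jet (Fin 4) ℝ) (f : ℕ → ℕ → ℕ → ℕ → ℝ)
    (hf : ∀ w, v w = f (w.count 0) (w.count 1) (w.count 2) (w.count 3))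
    (hr : Rows 4 (Kjet ![0, 1, 4, 9] (lin e b4)) v) :
    (8)*f 1 1 0 2 + (-1)*e 1*e 3*f 2 0 0 1 + (1)*e 0*e 3*f 0 2 0 1 + (-1)*e 3^2*f 1 2 0 0 + (4)*e 1*e 3*f 1 0 0 2 + (-1)*e 0*e 1*f 0 0 1 2 + (-1)*e 0*e 1*f 0 0 0 3 = 0 := by
  obtain ⟨X, hX⟩ : ∃ X, X = om (Kjet ![0, 1, 4, 9] (lin e b4)) v 1 3 [0, 3] := ⟨_, rfl⟩
  have hX0 : X = 0 := by rw [hX]; exact hr _ (by decide) _ _
  simp only [om, th, mul, D, Kjet, Fin.sum_univ_four, hf] at hX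
  simp [lin, b4] at hX
  linear_combination hX0 - hX

theorem q03_3 (e : Fin 4 → ℝ) (v : Jet (Fin 4) ℝ) (f : ℕ → ℕ → ℕ → ℕ → ℝ)
    (hf : ∀ w, v w = f (w.count 0) (w.count 1) (w.count 2) (w.count 3))
    (hr : Rows 4 (Kjet ![0, 1, 4, 9] (lin e b4)) v) :
    (9)*f 1 0 0 2 + (1)*e 0*e 3*f 0 1 0 1 + (-1)*e 3^2*f 1 1 0 0 = 0 := by
  obtain ⟨X, hX⟩ : ∃ X, X = om (Kjet ![0, 1, 4, 9] (lin e b4)) v 0 3 [3] := ⟨_, rfl⟩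
  have hX0 : X = 0 := by rw [hX]; exact hr _ (by decide) _ _
  simp only [om, th, mul, D, Kjet, Fin.sum_univ_four, hf] at hX
  simp [lin, b4] at hX
  linear_combination hX0 - hX

theorem solve (e : Fin 4 → ℝ) (v : Jet (Fin 4) ℝ) (f : ℕ → ℕ → ℕ → ℕ → ℝ)
    (hf : ∀ w, v w = f (w.count 0) (w.count 1) (w.count 2) (w.count 3))
    (he : ∀ i, e i ^ 2 = 1) (hr : Rows 4 (Kjet ![0, 1, 4, 9] (lin e b4)) v) :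
    (f 1 0 0 0 = 0 ∧ f 2 0 0 0 = 0 ∧ f 3 0 0 0 = 0) ∧
    (f 0 1 0 0 = 0 ∧ f 0 2 0 0 = 0 ∧ f 0 3 0 0 = 0) ∧
    (f 0 0 1 0 = 0 ∧ f 0 0 2 0 = 0 ∧ f 0 0 3 0 = 0) ∧
    (f 0 0 0 1 = 0 ∧ f 0 0 0 2 = 0 ∧ f 0 0 0 3 = 0) := by
  have q13_2 := q13_2 e v f hf hr
  have q23_1 := q23_1 e v f hf hr
  have q02_ := q02_ e v f hf hr
  have q23_ := q23_ e v f hf hr
  have q03_ := q03_ e v f hf hr
  have q03_2 := q03_2 e v f hf hr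
  have q23_0 := q23_0 e v f hf hr
  have q12_ := q12_ e v f hf hr
  have q13_ := q13_ e v f hf hr
  have q13_22 := q13_22 e v f hf hr
  have q23_12 := q23_12 e v f hf hr
  have q02_2 := q02_2 e v f hf hr
  have q23_2 := q23_2 e v f hf hr
  have q13_02 := q13_02 e v f hf hr
  have q23_01 := q23_01 e v f hf hr
  have q02_0 := q02_0 e v f hf hr
  have q01_ := q01_ e v f hf hr
  have q12_1 := q12_1 e v f hf hr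
  have q03_0 := q03_0 e v f hf hr
  have q13_1 := q13_1 e v f hf hr
  have q23_3 := q23_3 e v f hf hr
  have q01_3 := q01_3 e v f hf hr
  have q13_0 := q13_0 e v f hf hr
  have q01_2 := q01_2 e v f hf hr
  have q12_0 := q12_0 e v f hf hr
  have q13_12 := q13_12 e v f hf hr
  have q23_11 := q23_11 e v f hf hr
  have q02_11 := q02_11 e v f hf hr
  have q12_01 := q12_01 e v f hf hr
  have q01_0 := q01_0 e v f hf hr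
  have q12_2 := q12_2 e v f hf hr
  have q01_13 := q01_13 e v f hf hr
  have q13_01 := q13_01 e v f hf hr
  have q13_3 := q13_3 e v f hf hr
  have q02_01 := q02_01 e v f hf hr
  have q12_00 := q12_00 e v f hf hr
  have q01_1 := q01_1 e v f hf hr
  have q02_12 := q02_12 e v f hf hr
  have q12_02 := q12_02 e v f hf hr
  have q03_13 := q03_13 e v f hf hr
  have q13_03 := q13_03 e v f hf hr
  have q03_3 := q03_3 e v f hf hr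
  have z1 : f 0 1 0 0 = 0 := by
    linear_combination ((36)*e 0*e 1*e 2*e 3) * q13_2 + ((-288/5)*e 0*e 1*e 2*e 3) * q23_1 + ((-27/5)*e 0*e 2) * q02_ + ((36/25)*e 0*e 2) * q23_ + ((32/5)*e 0*e 3) * q03_ + ((27/5)*e 2^2*f 0 1 0 0 + (-32/5)*e 3^2*f 0 1 0 0) * he 0 + ((-108/5)*e 0*e 2*e 3^2*f 1 0 1 0 + (36/5)*e 0*e 2*e 3^2*f 0 0 1 1 + (288/5)*e 0*e 2^2*e 3*f 1 0 0 1) * he 1 + ((27/5)*f 0 1 0 0 + (288/5)*e 0*e 3*f 1 0 0 1) * he 2 + ((-32/5)*f 0 1 0 0 + (-108/5)*e 0*e 2*f 1 0 1 0 + (36/5)*e 0*e 2*f 0 0 1 1) * he 3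
  have z3 : f 0 0 0 1 = 0 := by
    linear_combination ((-8/3)*e 0*e 1*e 2*e 3) * q03_2 + ((8/3)*e 0*e 1*e 2*e 3) * q23_0 + ((-1/3)*e 1*e 2) * q12_ + ((1/3)*e 1*e 3) * q13_ + ((-20/3)*e 0*e 3) * q13_22 + ((32/3)*e 0*e 3) * q23_12 + ((1)*e 0*e 1) * q02_2 + ((-4/15)*e 0*e 1) * q23_2 + ((8/3)*e 1*e 2^2*e 3*f 0 1 0 1 + (-1)*e 1*e 2*f 0 1 1 0) * he 0 + ((-1/3)*e 2^2*f 1 0 0 0 + (1/3)*e 3^2*f 1 0 0 0 + (-1)*e 3^2*f 0 0 0 1) * he 1 + ((8/3)*e 1*e 3*f 0 1 0 1 + (-1/3)*f 1 0 0 0) * he 2 + ((4)*e 0*e 1*f 1 0 2 0 + (-4/3)*e 0*e 1*f 0 0 2 1 + (1/3)*f 1 0 0 0 + (-1)*f 0 0 0 1) * he 3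
  have z0 : f 1 0 0 0 = 0 := by
    linear_combination ((-24)*e 0*e 1*e 2*e 3) * q03_2 + ((216/5)*e 0*e 1*e 2*e 3) * q23_0 + ((-32/5)*e 1*e 2) * q12_ + ((27/5)*e 1*e 3) * q13_ - ((81/5)) * z3 + ((-96/5)*e 1*e 2*e 3^2*f 0 1 1 0 + (216/5)*e 1*e 2^2*e 3*f 0 1 0 1) * he 0 + ((-32/5)*e 2^2*f 1 0 0 0 + (27/5)*e 3^2*f 1 0 0 0 + (-81/5)*e 3^2*f 0 0 0 1) * he 1 + ((216/5)*e 1*e 3*f 0 1 0 1 + (-32/5)*f 1 0 0 0) * he 2 + ((-96/5)*e 1*e 2*f 0 1 1 0 + (27/5)*f 1 0 0 0 + (-81/5)*f 0 0 0 1) * he 3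
  have z2 : f 0 0 1 0 = 0 := by
    linear_combination ((-9)*e 2*e 3) * q13_02 + ((72/5)*e 2*e 3) * q23_01 + ((27/20)*e 1*e 2) * q02_0 + ((1/2)*e 0*e 1) * q01_ + ((-9/5)*e 0*e 2) * q12_1 + ((-9/25)*e 1*e 2) * q23_0 + ((-12/25)*e 0*e 1*e 2*e 3) * q12_ + ((-117/100)*e 0*e 1) * q13_ + ((-8/5)*e 1*e 3) * q03_0 + ((9/5)*e 0*e 3) * q13_1 + ((-9/5)*e 0*e 1*e 2*e 3) * q23_2 + ((-9/5)*e 0*e 1*e 2*e 3) * q23_3 - ((1) + (-351/100)*e 0*e 3) * z3 - ((33/20)*e 0*e 3) * z0 + ((-1)*e 1^2*f 0 0 1 0 + (-1)*e 1^2*f 0 0 0 1) * he 0 + ((-12/25)*e 0*e 2^2*e 3*f 1 0 0 0 + (-117/100)*e 0*e 3*f 1 0 0 0 + (351/100)*e 0*e 3*f 0 0 0 1 + (-1)*f 0 0 1 0 + (-1)*f 0 0 0 1) * he 1 + ((-72/5)*e 1*e 3*f 2 0 0 1 + (72/5)*e 0*e 3*f 0 2 0 1 + (-63/10)*e 0*e 1*f 1 1 0 0 + (-9/25)*e 0*e 1*f 0 1 0 1 + (-12/25)*e 0*e 3*f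 1 0 0 0) * he 2 + ((27/5)*e 1*e 2*f 2 0 1 0 + (-27/5)*e 0*e 2*f 0 2 1 0 + (-9/5)*e 1*e 2*f 1 0 1 1 + (34/5)*e 0*e 1*f 1 1 0 0 + (-9)*e 0*e 1*f 0 1 0 1 + (-9/5)*e 0*e 1*e 2*e 3*f 0 1 1 0) * he 3
  have z33 : f 0 0 0 2 = 0 := by
    linear_combination ((4/5)*e 0*e 1) * q01_3 + ((3/5)*e 0*e 1) * q13_0 + ((-149/900)*e 0*e 3) * q03_ + ((-1/5) + (-49/250)*e 0*e 2) * q23_ + ((-3/10)*e 0*e 1*e 2*e 3) * q01_2 + ((-3/5)*e 0*e 1*e 2*e 3) * q12_0 + ((7/4)*e 0*e 2) * q13_12 + ((-14/5)*e 0*e 2) * q23_11 + ((49/100)*e 0*e 1*e 2*e 3) * q23_1 + ((49/400)*e 0*e 2) * q02_ - ((-31/720)) * z1 + ((-1)*e 1^2*f 0 0 1 1 + (-1)*e 1^2*f 0 0 0 2 + (-3/5)*e 1*e 3*f 0 2 0 0 + (149/900)*e 3^2*f 0 1 0 0 + (3/5)*e 1*e 2^2*e 3*f 0 2 0 0 + (-49/400)*e 2^2*f 0 1 0 0) * he 0 + ((-1)*e 0*e 3*f 1 0 0 1 + (3/5)*e 0*e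 3*f 2 0 0 0 + (-3/5)*e 0*e 2^2*e 3*f 2 0 0 0 + (49/100)*e 0*e 2*e 3^2*f 1 0 1 0 + (-49/50)*e 0*e 2*e 3^2*f 0 0 1 1 + (-49/100)*e 0*e 2^2*e 3*f 1 0 0 1 + (-1)*f 0 0 1 1 + (-1)*f 0 0 0 2) * he 1 + ((28/5)*e 0*e 1*f 1 1 0 1 + (3/5)*e 1*e 3*f 0 2 0 0 + (-49/400)*f 0 1 0 0 + (-3/5)*e 0*e 3*f 2 0 0 0 + (-49/100)*e 0*e 3*f 1 0 0 1) * he 2 + ((149/900)*f 0 1 0 0 + (49/100)*e 0*e 2*f 1 0 1 0 + (-49/50)*e 0*e 2*f 0 0 1 1) * he 3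
  have z22 : f 0 0 2 0 = 0 := by
    linear_combination ((5/2)*e 0*e 3) * q13_12 + ((-4)*e 0*e 3) * q23_11 + ((-1)*e 0*e 1) * q12_0 + ((-1/5) + (-7/25)*e 0*e 3 + (1/5)*e 2*e 3) * q23_ + ((7/10)*e 0*e 1) * q23_1 + ((7/40)*e 0*e 3) * q02_ + ((-37/90)*e 0*e 2) * q03_ + ((1)*e 0*e 1*e 2*e 3) * q13_0 - ((-17/72)*e 2*e 3) * z1 - ((-1)*e 2*e 3) * z33 + ((1)*e 1*e 2*f 0 2 0 0 + (-1)*e 1^2*f 0 0 2 0 + (-1)*e 1^2*f 0 0 1 1 + (17/72)*e 2*e 3*f 0 1 0 0 + (-1)*e 1*e 2*e 3^2*f 0 2 0 0 + (1)*e 1^2*e 2*e 3*f 0 0 1 1 + (1)*e 1^2*e 2*e 3*f 0 0 0 2) * he 0 + ((-1)*e 0*e 2*f 2 0 0 0 + (7/10)*e 0*e 3*f 1 0 1 0 + (-7/5)*e 0*e 3*f 0 0 1 1 + (-7/10)*e 0*e 2*f 1 0 0 1 + (1)*e 0*e 2*e 3^2*f 2 0 0 0 + (-3)*e 0*e 2*e 3^2*f 1 0 0 1 + (-1)*f 0 0 2 0 + (-1)*f 0 0 1 1 + (1)*e 2*e 3*f 0 0 1 1 + (1)*e 2*e 3*f 0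 0 0 2) * he 1 + ((-3)*e 0*e 1*f 1 1 1 0 + (7/2)*e 0*e 1*f 0 1 1 1 + (-1)*e 1*e 2*f 0 2 0 0 + (1)*e 0*e 2*f 2 0 0 0 + (-3)*e 0*e 2*f 1 0 0 1) * he 3
  have z111 : f 0 3 0 0 = 0 := by
    linear_combination ((-3)*e 0*e 2) * q02_11 + ((4)*e 0*e 2) * q12_01 + ((2)*e 0*e 1) * q01_0 + ((-2/3) + (1/2)*e 2*e 3) * q02_ + ((-8/9)) * q03_ + ((10/3)*e 1*e 2) * q12_2 + ((2)*e 1*e 2) * q23_1 + ((-4/5)*e 2*e 3) * q23_ - ((-2/3)*e 0*e 2 + (-7/18)*e 0*e 3) * z1 + ((-1)*e 2^2*f 0 3 0 0 + (10)*e 1*e 2*f 0 1 2 0 + (10)*e 1*e 2*f 0 1 1 1 + (-6)*e 1^2*f 1 0 1 0 + (-6)*e 1^2*f 1 0 0 1) * he 0 + ((10/3)*e 2^2*f 1 0 1 0 + (2)*e 2*e 3*f 1 0 1 0 + (-4)*e 2*e 3*f 0 0 1 1 + (-2)*e 2^2*f 1 0 0 1 + (-6)*f 1 0 1 0 + (-6)*f 1 0 0 1) * he 1 + ((2)*e 0*e 1*f 2 1 0 0 + (-1/2)*e 0*e 3*f 0 1 0 0 + (-1)*f 0 3 0 0 + (10/3)*f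 1 0 1 0 + (-2)*f 1 0 0 1) * he 2
  have z11 : f 0 2 0 0 = 0 := by
    linear_combination ((64/25)*e 0*e 1) * q01_13 + ((-8/25)*e 0*e 1) * q13_01 + ((-16/25)*e 0*e 3) * q01_0 + ((2/25)*e 1*e 3) * q02_ + ((23/225)*e 1*e 3 + (-13/75)*e 0*e 1 + (8/45)*e 1*e 2) * q03_ + ((13/25)*e 0*e 3) * q13_0 + ((93/125)*e 1*e 3 + (-91/125)*e 1*e 2) * q23_ + ((-8/5)) * q23_1 + ((-1)) * q13_3 + ((39/25)*e 0*e 2) * q01_2 + ((-13/25)*e 0*e 2) * q12_0 - ((-8/25)*e 1*e 3) * z111 - ((58/225)*e 0*e 1*e 2*e 3 + (23/225)*e 0*e 1 + (-13/75)*e 1*e 3) * z1 - ((-113/25)*e 1*e 3) * z33 - ((91/25)*e 1*e 2) * z22 + ((-8)*e 1^2*f 0 1 1 1 + (-8)*e 1^2*f 0 1 0 2 + (8/25)*e 1*e 3*f 0 3 0 0 + (48/25)*e 1*e 3*f 1 0 1 0 + (48/25)*e 1*e 3*f 1 0 0 1 + (13/75)*e 1*e 3*f 0 1 0 0 + (-13/25)*e 3^2*f 0 2 0 0 + (13/25)*e 1*e 3*f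 0 0 1 1 + (13/25)*e 1*e 3*f 0 0 0 2 + (-91/25)*e 1*e 2*f 0 0 2 0 + (-91/25)*e 1*e 2*f 0 0 1 1 + (13/25)*e 2^2*f 0 2 0 0) * he 0 + ((104/25)*e 0*e 3*f 1 1 0 1 + (-16/25)*e 0*e 3*f 2 1 0 0 + (-8)*f 0 1 1 1 + (-8)*f 0 1 0 2) * he 1 + ((-13/25)*e 0*e 1*f 2 0 0 0 + (13/25)*f 0 2 0 0) * he 2 + ((-23/225)*e 0*e 1*f 0 1 0 0 + (13/25)*e 0*e 1*f 2 0 0 0 + (-39/25)*e 0*e 1*f 1 0 0 1 + (-38/25)*f 0 2 0 0) * he 3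
  have z00 : f 2 0 0 0 = 0 := by
    linear_combination ((3)*e 1*e 2) * q01_2 + ((-1)*e 1*e 2) * q12_0 + ((-7/5)*e 0*e 2) * q23_ - ((7)*e 0*e 2) * z22 - ((-1)*e 0*e 1) * z11 + ((-7)*e 0*e 2*f 0 0 2 0 + (-7)*e 0*e 2*f 0 0 1 1 + (-1)*e 2^2*f 2 0 0 0) * he 1 + ((1)*e 0*e 1*f 0 2 0 0 + (-1)*f 2 0 0 0) * he 2
  have z000 : f 3 0 0 0 = 0 := by
    linear_combination ((3)*e 1*e 2) * q02_01 + ((-4)*e 1*e 2) * q12_00 + ((2)*e 0*e 1) * q01_1 + ((-13/12) + (11/15)*e 2*e 3) * q12_ + ((-41/40)) * q13_ + ((-11/4)*e 0*e 2) * q02_2 + ((-11/5)*e 0*e 2) * q23_0 - ((13/12)*e 1*e 2 + (7/24)*e 1*e 3) * z0 - ((-123/40)*e 1*e 3) * z3 + ((-6)*e 1^2*f 0 1 1 0 + (-6)*e 1^2*f 0 1 0 1 + (11/4)*e 2^2*f 0 1 1 0 + (11/5)*e 2*e 3*f 0 1 1 0 + (-11/5)*e 2^2*f 0 1 0 1) * he 0 + ((-1)*e 2^2*f 3 0 0 0 + (-11)*e 0*e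 2*f 1 0 2 0 + (-11)*e 0*e 2*f 1 0 1 1 + (-6)*f 0 1 1 0 + (-6)*f 0 1 0 1) * he 1 + ((2)*e 0*e 1*f 1 2 0 0 + (11/15)*e 1*e 3*f 1 0 0 0 + (11/4)*f 0 1 1 0 + (-11/5)*f 0 1 0 1 + (-1)*f 3 0 0 0) * he 2
  have z222 : f 0 0 3 0 = 0 := by
    linear_combination ((3/7)*e 0*e 1) * q02_12 + ((-4/7)*e 0*e 1) * q12_02 + ((-1/28)*e 0*e 2) * q02_0 + ((1/6)) * q01_ + ((1/21)*e 1*e 2) * q12_1 + ((-1/5)) * q23_2 - ((1/3)*e 0*e 1) * z2 - ((1/3)*e 0*e 1) * z3 + ((1/7)*e 1*e 2*f 0 2 1 0 + (-1)*e 1^2*f 0 0 3 0 + (-1)*e 1^2*f 0 0 2 1 + (1/14)*e 2^2*f 1 1 0 0) * he 0 + ((-1/7)*e 0*e 2*f 2 0 1 0 + (2/21)*e 2^2*f 1 1 0 0 + (-1)*f 0 0 3 0 + (-1)*f 0 0 2 1) * he 1 + ((1/6)*f 1 1 0 0) * he 2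
  have z333 : f 0 0 0 3 = 0 := by
    linear_combination ((8/17)*e 0*e 1) * q03_13 + ((-9/17)*e 0*e 1) * q13_03 + ((-1/153)*e 0*e 3) * q03_0 + ((1/36) + (20/153)*e 0*e 3) * q01_ + ((1/136)*e 1*e 3) * q13_1 + ((11/9792)) * q13_ + ((-1/17)*e 0*e 1) * q01_1 + ((-2/255)) * q12_ + ((20/153)*e 0*e 3) * q03_3 + ((-1/5)) * q23_3 - ((1/18)*e 0*e 1 + (40/153)*e 1*e 3) * z2 - ((1/18)*e 0*e 1 + (2593/9792)*e 1*e 3) * z3 - ((-11/9792)*e 1*e 3 + (2/255)*e 1*e 2) * z0 + ((1/17)*e 1*e 3*f 0 2 0 1 + (-1)*e 1^2*f 0 0 1 2 + (-1)*e 1^2*f 0 0 0 3 + (2/153)*e 3^2*f 1 1 0 0 + (-40/153)*e 1*e 3*f 0 0 1 0 + (-40/153)*e 1*e 3*f 0 0 0 1 + (3/17)*e 1^2*f 0 1 1 0 + (3/17)*e 1^2*f 0 1 0 1 + (-20/153)*e 3^2*f 0 1 0 1) * he 0 + ((-1/17)*e 0*e 3*f 2 0 0 1 + (20/17)*e 0*e 3*f 1 0 0 2 + (1/68)*e 3^2*f 1 1 0 0 + (-5/136)*e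 3^2*f 0 1 0 1 + (-1)*f 0 0 1 2 + (-1)*f 0 0 0 3 + (3/17)*f 0 1 1 0 + (3/17)*f 0 1 0 1) * he 1 + ((-1/17)*e 0*e 1*f 1 2 0 0 + (20/153)*e 0*e 3*f 1 1 0 0 + (-1/5)*f 0 1 1 0 + (1/36)*f 1 1 0 0 + (-205/1224)*f 0 1 0 1) * he 3
  exact ⟨⟨z0, z00, z000⟩, ⟨z1, z11, z111⟩, ⟨z2, z22, z222⟩, ⟨z3, z33, z333⟩⟩

theorem t (h : S_PUR) : S_N4 := by
  intro e he
  refine h (Fin 4) 4 _ ![0, 1, 4, 9] ?_ (fun s j => rfl) ?_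
  · intro a b hab
    fin_cases a <;> fin_cases b <;> first | rfl | (exfalso; revert hab; norm_num)
  · rintro v ⟨hs, -, hr⟩ i k hk1 hk4
    have hf : ∀ w, v w = (fun a b c d => v (List.replicate a 0 ++ (List.replicate b 1 ++
        (List.replicate c 2 ++ List.replicate d 3)))) (w.count 0) (w.count 1) (w.count 2)
          (w.count 3) := by
      intro w
      apply hs
      rw [List.perm_iff_count]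
      intro a
      simp only [List.count_append, List.count_replicate]
      fin_cases a <;> simp
    have h1 := solve e v (fun a b c d => v (List.replicate a 0 ++ (List.replicate b 1 ++
        (List.replicate c 2 ++ List.replicate d 3)))) hf he hr
    rw [hf]
    obtain ⟨⟨a1, a2, a3⟩, ⟨b1, b2, b3⟩, ⟨c1, c2, c3⟩, ⟨d1, d2, d3⟩⟩ := h1
    interval_cases k <;> fin_cases i <;> assumption

end Pool.Agent.N37.KT.N4
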